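import Pool.Agent.H986R3.SOAFinal

/-!
# Local `Pi^1_1` reflection over a weak base theory
-/

set_option autoImplicit false

namespace Pool.Agent.Y9.LR

open Function Pool.Agent.H986R3.SOA

/-- A proof predicate: `prf(p, x)` (with `p` the number variable `1` and `x` the number variable
`2`) says that `p` is a proof of `x`, and `axIn(a, p)` (with `a` the number variable `0`) that the
non-logical axiom `a` is used in `p`. The only requirement is that in the standard model they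
define a sound and complete notion of proof. -/
structure ProofPred where
  prf : Fm
  axIn : Fm
  prf_arith : prf.Arithmetical
  prf_free : prf.FreeIn {1, 2}
  axIn_arith : axIn.Arithmetical
  axIn_free : axIn.FreeIn {0, 1}
  prf_correct : ∀ (T : Set Fm), (∀ ψ ∈ T, ψ.IsSentence) → ∀ φ : Fm, φ.IsSentence →
    (Proves T φ ↔ ∃ p : ℕ, SatN 0 p φ.code prf ∧ ∀ a : ℕ, SatN a p 0 axIn → ∃ ψ ∈ T, ψ.code = a)

/-- The provability predicate `Pr_τ(x)` (with `x` the number variable `2`) built from `τ(a)`. -/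
def ProofPred.Pr (Pp : ProofPred) (τ : Fm) : Fm :=
  .ex 1 (.and Pp.prf (.all 0 (.imp Pp.axIn τ)))

/-- The instance `Pr_τ(φ) → φ` of local reflection. -/
def ProofPred.refl (Pp : ProofPred) (τ φ : Fm) : Fm := .imp ((Pp.Pr τ).inst φ.code) φ

/-- The weak base theory: the recursion equations of addition and multiplication, and the
comprehension axiom for the sections `{n | (a + 1, n) ∈ X}` of sets. -/
inductive Weak : Fm → Prop
  | add_zero : Weak (.eq (.add (.var 0) .zero) (.var 0))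
  | add_succ : Weak (.eq (.add (.var 0) (.add (.var 1) .one)) (.add (.add (.var 0) (.var 1)) .one))
  | mul_zero : Weak (.eq (.mul (.var 0) .zero) .zero)
  | mul_succ : Weak (.eq (.mul (.var 0) (.add (.var 1) .one)) (.add (.mul (.var 0) (.var 1)) (.var 0)))
  | sections : Weak (.exS 1 (.all 0 (.iff (.mem (.var 0) 1)
      (.mem (prT (.add (.var 1) .one) (.var 0)) 0))))

theorem Weak.aca {φ : Fm} (h : Weak φ) : ACA0 φ := by
  cases h with
  | add_zero => exact ACA0.add_zero
  | add_succ => exact ACA0.add_succ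
  | mul_zero => exact ACA0.mul_zero
  | mul_succ => exact ACA0.mul_succ
  | sections => exact ACA0.comprehension _ 0 1 trivial (by simp [Fm.fvS])

theorem arith_of_weak (M : Model) (h : ∀ ψ, Weak ψ → M.Holds ψ) : Arith M := by
  obtain ⟨V, hV⟩ := M.exists_setAsg
  refine ⟨fun m => ?_, fun m n => ?_, fun m => ?_, fun m n => ?_⟩
  · have := h _ Weak.add_zero (fun _ => m) V hV
    simpa [Sat, Tm.val] using this
  · have := h _ Weak.add_succ (fun i => if i = 0 then m else n) V hV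
    simpa [Sat, Tm.val] using this
  · have := h _ Weak.mul_zero (fun _ => m) V hV
    simpa [Sat, Tm.val] using this
  · have := h _ Weak.mul_succ (fun i => if i = 0 then m else n) V hV
    simpa [Sat, Tm.val] using this

theorem section_mem (M : Model) (h : ∀ ψ, Weak ψ → M.Holds ψ) (W : Set M.Num) (hW : W ∈ M.sets)
    (a : M.Num) : {n | M.pr (M.add a M.one) n ∈ W} ∈ M.sets := by
  have h1 := h _ Weak.sections (fun _ => a) (fun _ => W) (fun _ => hW)
  rw [Sat_exS] at h1
  obtain ⟨A, hA, h2⟩ := h1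
  have : {n | M.pr (M.add a M.one) n ∈ W} = A := by
    ext n
    have h3 := h2 n
    rw [Sat_iff] at h3
    simp only [Sat, val_prT, Tm.val] at h3
    simp at h3
    exact h3.symm
  rw [this]; exact hA

variable (Pp : ProofPred) (b i : ℕ) (θ : Fm)

/-- Strong provability. -/
def prs : Fm :=
  .ex 1 (.and Pp.prf (.all 0 (.imp Pp.axIn (.all b (.imp (.eq (.var b) (.var 0)) (θ.sec b i))))))

/-- `∀ x_2 (x_2 = the code given by x_3 → ¬ Prs(x_2))`. -/
def HH : Fm := .all 2 (.imp (dg i) (.neg (prs Pp b i θ)))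

/-- The Goedel sentence. -/
def gamma : Fm := Gam i (HH Pp b i θ).code (HH Pp b i θ)

variable {Pp b i θ}

theorem prs_arith (hθ : θ.Arithmetical) : (prs Pp b i θ).Arithmetical := by
  simp only [prs, Fm.Arithmetical, Fm.imp, Fm.ex]
  exact ⟨Pp.prf_arith, Pp.axIn_arith, trivial, Fm.sec_arith b i θ hθ⟩

theorem prs_fvN (hθ : θ.Arithmetical) (hf : θ.fvN ⊆ {0}) : (prs Pp b i θ).fvN ⊆ {2} := by
  intro x hx
  simp only [prs, Fm.fvN, Fm.imp, Fm.ex, Tm.fv, Set.mem_union, Set.mem_sdiff,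
    Set.mem_singleton_iff] at hx
  simp only [Set.mem_singleton_iff]
  have h1 : x ∈ Pp.prf.fvN → x ∈ ({1, 2} : Set ℕ) := fun h => Pp.prf_free.1 h
  have h2 : x ∈ Pp.axIn.fvN → x ∈ ({0, 1} : Set ℕ) := fun h => Pp.axIn_free.1 h
  have h3 : x ∈ (θ.sec b i).fvN → x ∈ θ.fvN ∪ {b} := fun h => Fm.sec_fvN b i θ hθ h
  have h4 : x ∈ θ.fvN → x ∈ ({0} : Set ℕ) := fun h => hf h
  simp only [Set.mem_union, Set.mem_insert_iff, Set.mem_singleton_iff] at h1 h2 h3 h4
  tauto

theorem prs_fvS (hθ : θ.Arithmetical) (hf : θ.fvS ⊆ {i}) : (prs Pp b i θ).fvS ⊆ {i} := by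
  intro x hx
  simp only [prs, Fm.fvS, Fm.imp, Fm.ex, Pp.prf_free.2, Pp.axIn_free.2, Set.mem_union,
    Set.mem_empty_iff_false, false_or] at hx
  exact hf (Fm.sec_fvS b i θ hθ hx)

theorem gamma_pi (hθ : θ.Arithmetical) (hf : θ.fvN ⊆ {0}) (hf' : θ.fvS ⊆ {i}) :
    (gamma Pp b i θ).IsPi11Sentence := by
  refine ⟨⟨i, _, rfl, ?_⟩, ?_, ?_⟩
  · simp only [HH, Fm.Arithmetical, Fm.imp]
    exact ⟨trivial, dg_arith i, prs_arith hθ⟩
  · refine Set.eq_empty_iff_forall_notMem.mpr fun x hx => ?_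
    simp only [gamma, Gam, HH, Fm.fvN, Fm.imp, Tm.fv, numeral_fv, Set.mem_union, Set.mem_sdiff,
      Set.mem_singleton_iff, Set.mem_empty_iff_false] at hx
    have h1 := @dg_fvN i x
    have h2 : x ∈ (prs Pp b i θ).fvN → x ∈ ({2} : Set ℕ) := fun h => prs_fvN hθ hf h
    simp only [Set.mem_insert_iff, Set.mem_singleton_iff] at h1 h2
    tauto
  · refine Set.eq_empty_iff_forall_notMem.mpr fun x hx => ?_
    simp only [gamma, Gam, HH, Fm.fvS, Fm.imp, Set.mem_union, Set.mem_sdiff,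
      Set.mem_singleton_iff, Set.mem_empty_iff_false, false_or] at hx
    have h1 := @dg_fvS i x
    have h2 : x ∈ (prs Pp b i θ).fvS → x ∈ ({i} : Set ℕ) := fun h => prs_fvS hθ hf' h
    simp only [Set.mem_singleton_iff] at h1 h2
    tauto

theorem Sat_prs (M : Model) (hθ : θ.Arithmetical) (hf : θ.fvN ⊆ {0}) (hf' : θ.fvS ⊆ {i})
    (hb : θ.bd ≤ b) (v : ℕ → M.Num) (V : ℕ → Set M.Num) (hb0 : b ≠ 0) :
    Sat M v V (prs Pp b i θ) ↔ ∃ p, Sat M (asg M.zero p (v 2)) (fun _ => ∅) Pp.prf ∧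
      ∀ a, Sat M (asg a p M.zero) (fun _ => ∅) Pp.axIn →
        Sat M (asg a M.zero M.zero)
          (update (fun _ => ∅) i {n | M.pr (M.add a M.one) n ∈ V i}) θ := by
  simp only [prs, Sat_ex, Sat, Sat_imp, Tm.val]
  refine exists_congr fun p => and_congr ?_ (forall_congr' fun a => imp_congr ?_ ?_)
  · refine Sat_free_asg M Pp.prf_free _ _ _ _ ?_
    intro j hj
    rcases hj with rfl | rfl
    · simp [asg]
    · simp [asg]
  · refine Sat_free_asg M Pp.axIn_free _ _ _ _ ?_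
    intro j hj
    rcases hj with rfl | rfl
    · simp [asg]
    · simp [asg]
  · have e0 : ∀ a_2 : M.Num, update (update (update v 1 p) 0 a) b a_2 b = a_2 := fun _ => by simp
    have e1 : ∀ a_2 : M.Num, update (update (update v 1 p) 0 a) b a_2 0 = a := fun a_2 => by
      rw [update_of_ne hb0.symm]; simp
    simp only [e0, e1]
    rw [forall_eq, Sat_sec M b i θ hθ hb]
    refine Sat_congr M θ _ _ _ _ ?_ ?_
    · intro j hj
      have := hf hj
      rw [Set.mem_singleton_iff] at this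
      subst this
      rw [update_of_ne hb0.symm]
      simp [asg]
    · intro j hj
      have := hf' hj
      rw [Set.mem_singleton_iff] at this
      subst this
      simp

theorem Sat_gamma (M : Model) (v : ℕ → M.Num) (V : ℕ → Set M.Num) :
    Sat M v V (gamma Pp b i θ) ↔ ∀ W ∈ M.sets, ∀ x2,
      Sat M (update (update v 3 (M.num (HH Pp b i θ).code)) 2 x2) (update V i W) (dg i) →
      ¬ Sat M (update (update v 3 (M.num (HH Pp b i θ).code)) 2 x2) (update V i W)
        (prs Pp b i θ) := by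
  simp only [gamma, Gam, HH, Sat, Sat_imp, Tm.val, val_numeral, update_self]
  constructor
  · intro h W hW x2 h1
    exact h W hW _ rfl x2 h1
  · intro h W hW a ha x2
    subst ha
    exact h W hW x2

/-- The model theoretic step: where the Goedel sentence is false, it is provable. -/
theorem step (M : Model) (hM : ∀ ψ, Weak ψ → M.Holds ψ) (hθ : θ.Arithmetical)
    (hf : θ.fvN ⊆ {0}) (hf' : θ.fvS ⊆ {i}) (hb : θ.bd ≤ b) (hb0 : b ≠ 0)
    (v : ℕ → M.Num) (V : ℕ → Set M.Num) (hn : ¬ Sat M v V (gamma Pp b i θ)) :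
    Sat M v V ((Pp.Pr (.exS i θ)).inst (gamma Pp b i θ).code) := by
  have hA : Arith M := arith_of_weak M hM
  rw [Sat_gamma] at hn
  push Not at hn
  obtain ⟨W, hW, x2, h1, h2⟩ := hn
  rw [Sat_dg] at h1
  obtain ⟨hrec, y, hy, hx⟩ := h1
  rw [update_self] at hrec hy
  rw [update_of_ne (by norm_num : (3 : ℕ) ≠ 2), update_self] at hy hx
  rw [update_self] at hx
  have hy' := rec_unique hA hrec _ y hy
  rw [hy', ← num_gam hA, ← code_Gam] at hx
  change x2 = M.num (gamma Pp b i θ).code at hx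
  rw [Sat_prs M hθ hf hf' hb _ _ hb0] at h2
  rw [update_self, update_self] at h2
  obtain ⟨p, hp, hax⟩ := h2
  simp only [Fm.inst, Sat, Sat_imp, Tm.val, update_self, val_numeral]
  rintro a rfl
  simp only [ProofPred.Pr, Sat, Sat_imp, Sat_ex, Sat_exS]
  refine ⟨p, ?_, ?_⟩
  · refine (Sat_free_asg M Pp.prf_free _ _ _ _ ?_).mpr hp
    intro j hj
    rcases hj with rfl | rfl
    · simp [asg]
    · simp [asg, hx]
  · intro a ha
    refine ⟨{n | M.pr (M.add a M.one) n ∈ W}, section_mem M hM W hW a, ?_⟩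
    have h3 := hax a ((Sat_free_asg M Pp.axIn_free _ _ _ _ (by
      intro j hj
      rcases hj with rfl | rfl
      · simp [asg]
      · simp [asg])).mp ha)
    refine (Sat_congr M θ _ _ _ _ ?_ ?_).mp h3
    · intro j hj
      have := hf hj
      rw [Set.mem_singleton_iff] at this
      subst this
      simp [asg]
    · intro j hj
      have := hf' hj
      rw [Set.mem_singleton_iff] at this
      subst this
      simp

theorem std_weak : ∀ ψ, Weak ψ → std.Holds ψ := by
  intro ψ hψ v V _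
  cases hψ with
  | add_zero => exact Nat.add_zero _
  | add_succ => exact (Nat.add_assoc _ _ 1).symm
  | mul_zero => exact Nat.mul_zero _
  | mul_succ => exact Nat.mul_succ _ _
  | sections =>
    rw [Sat_exS]
    refine ⟨{n | Sat std (update v 0 n) V (.mem (prT (.add (.var 1) .one) (.var 0)) 0)}, trivial,
      fun n => ?_⟩
    rw [Sat_iff]
    simp [Sat, Tm.val]

/-- The standard value of `Pr_τ(φ)` is provability. -/
theorem std_Pr (T : Set Fm) (hT : ∀ ψ ∈ T, ψ.IsSentence) (τ : Fm) (hτ : Sigma11Defines τ T)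
    (φ : Fm) (hφ : φ.IsSentence) (v : ℕ → std.Num) (V : ℕ → Set std.Num)
    (h : Sat std v V ((Pp.Pr τ).inst φ.code)) : Proves T φ := by
  rw [Pp.prf_correct T hT φ hφ]
  simp only [Fm.inst, Sat, Sat_imp, Tm.val, update_self, val_numeral] at h
  have h1 := h _ rfl
  simp only [ProofPred.Pr, Sat, Sat_imp, Sat_ex] at h1
  obtain ⟨p, hp, hax⟩ := h1
  have u2 : update (update v 2 (std.num φ.code)) 1 p 2 = (φ.code : ℕ) := by
    rw [update_of_ne (by norm_num : (2 : ℕ) ≠ 1), update_self]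
    exact std_num _
  have u1 : update (update v 2 (std.num φ.code)) 1 p 1 = p := update_self _ _ _
  refine ⟨p, ?_, fun a ha => ?_⟩
  · refine (Sat_free_asg std Pp.prf_free _ _ _ _ ?_).mp hp
    intro j hj
    rcases hj with rfl | rfl
    · exact u1
    · exact u2
  · rw [← hτ.2.2 a]
    have h2 := hax a ((Sat_free_asg std Pp.axIn_free _ _ _ _ (by
      intro j hj
      rcases hj with rfl | rfl
      · exact update_self _ _ _
      · exact (update_of_ne (by norm_num : (1 : ℕ) ≠ 0) _ _).trans u1)).mpr ha)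
    refine (Sat_free_asg std hτ.2.1 _ _ _ _ ?_).mp h2
    intro j hj
    rw [Set.mem_singleton_iff] at hj
    subst hj
    exact update_self _ _ _

theorem gamma_false (M : Model) (hθ : θ.Arithmetical)
    (hf : θ.fvN ⊆ {0}) (hf' : θ.fvS ⊆ {i}) (hb : θ.bd ≤ b) (hb0 : b ≠ 0)
    (W : Set M.Num) (hW : W ∈ M.sets) (hrec : M.Rec W) (y x2 p : M.Num)
    (hy : M.pr M.zero (M.pr (M.num (HH Pp b i θ).code) y) ∈ W)
    (hx2 : x2 = M.gam i y (M.num (HH Pp b i θ).code))
    (hp : Sat M (asg M.zero p x2) (fun _ => ∅) Pp.prf)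
    (hax : ∀ a, Sat M (asg a p M.zero) (fun _ => ∅) Pp.axIn →
        Sat M (asg a M.zero M.zero) (update (fun _ => ∅) i {n | M.pr (M.add a M.one) n ∈ W}) θ) :
    ¬ M.Holds (gamma Pp b i θ) := by
  intro h
  have h1 := (Sat_gamma M (fun _ => M.zero) (fun _ => W)).mp (h _ _ (fun _ => hW)) W hW x2
  refine h1 ?_ ?_
  · rw [Sat_dg, update_self, update_of_ne (by norm_num : (3 : ℕ) ≠ 2), update_self, update_self]
    exact ⟨hrec, y, hy, hx2⟩
  · rw [Sat_prs M hθ hf hf' hb _ _ hb0, update_self, update_self]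
    exact ⟨p, hp, hax⟩

/-- A `Sigma^1_1` formula `∃ X θ` without other free variables than the number variable `0`. -/
theorem free_parts {i : ℕ} {θ : Fm} (hfree : (Fm.exS i θ).FreeIn {0}) :
    θ.fvN ⊆ {0} ∧ θ.fvS ⊆ {i} := by
  refine ⟨hfree.1, ?_⟩
  have h2 : θ.fvS \ {i} = ∅ := hfree.2
  intro x hx
  by_contra hne
  have : x ∈ θ.fvS \ {i} := ⟨hx, hne⟩
  rw [h2] at this
  exact this

/-- For every `Sigma^1_1` formula `τ` there is a `Pi^1_1` sentence `γ` for which the weak base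
theory proves `(Pr_τ(γ) → γ) → γ`, and which is true if and only if it is not provable in the
theory defined by `τ`. -/
theorem local_main (Pp : ProofPred) (τ : Fm) (hs : τ.IsSigma11) (hfree : τ.FreeIn {0}) :
    ∃ γ : Fm, γ.IsPi11Sentence ∧ Proves {ψ | Weak ψ} (.imp (Pp.refl τ γ) γ) ∧
      ∀ T : Set Fm, (∀ ψ ∈ T, ψ.IsSentence) → Sigma11Defines τ T →
        (std.Holds γ ↔ ¬ Proves T γ) := by
  obtain ⟨i, θ, rfl, hθ⟩ := hs
  obtain ⟨hf, hf'⟩ := free_parts hfree
  set b := max θ.bd 1 with hb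
  have hb1 : θ.bd ≤ b := le_max_left _ _
  have hb0 : b ≠ 0 := by omega
  have hpi : (gamma Pp b i θ).IsPi11Sentence := gamma_pi hθ hf hf'
  refine ⟨gamma Pp b i θ, hpi, ?_, fun T hTs hτ => ⟨fun htrue hγ => ?_, fun hγ => ?_⟩⟩
  · intro M hM v V hV
    rw [Sat_imp]
    intro h2
    by_contra hn
    have h1 := step M (fun ψ hψ => hM ψ hψ) hθ hf hf' hb1 hb0 v V hn
    rw [ProofPred.refl, Sat_imp] at h2
    exact hn (h2 h1)
  · have hdef := hτ.2.2
    obtain ⟨p, hp, hax⟩ := (Pp.prf_correct T hTs _ hpi.2).mp hγ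
    have hX : ∀ a : ℕ, ∃ X : Set ℕ, SatN a p 0 Pp.axIn →
        Sat std (asg (A := ℕ) a 0 0) (update (fun _ => (∅ : Set ℕ)) i X) θ := by
      intro a
      by_cases ha : SatN a p 0 Pp.axIn
      · have h1 := (hdef a).mpr (hax a ha)
        obtain ⟨X, _, hX⟩ :=
          (Sat_exS std (asg (A := ℕ) a 0 0) (fun _ => (∅ : Set ℕ)) i θ).mp h1
        exact ⟨X, fun _ => hX⟩
      · exact ⟨∅, fun h => absurd h ha⟩
    choose X hX using hX
    refine gamma_false std (Pp := Pp) (b := b) (i := i) (θ := θ) hθ hf hf' hb1 hb0 (Wit X) trivial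
      ?_ (numeral (HH Pp b i θ).code).code (gamma Pp b i θ).code p (Wit_mem X _) (std_gam i _ _) hp
      ?_ htrue
    · rw [std_Rec_iff]
      refine ⟨fun y hy => Wit_num 0 y hy, fun u y hy => ⟨(numeral u).code, Or.inl ⟨u, rfl⟩, ?_⟩⟩
      exact Wit_num (u + 1) y hy
    · intro a ha
      have h2 := hX a ha
      rw [← Wit_sec (X := X) a] at h2
      exact h2
  · intro v V _
    by_contra hn
    exact hγ (std_Pr T hTs _ hτ _ hpi.2 v V (step std std_weak hθ hf hf' hb1 hb0 v V hn))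

/-- A provable implication between provable sentences. -/
theorem mp_proves (T : Set Fm) (hW : ∀ φ, Weak φ → Proves T φ) (φ ψ : Fm)
    (h : Proves {ψ | Weak ψ} (.imp φ ψ)) (h1 : Proves T φ) : Proves T ψ := by
  intro M hM v V hV
  have h2 := h M (fun χ hχ => hW χ hχ M hM) v V hV
  rw [Sat_imp] at h2
  exact h2 (h1 M hM v V hV)

/-- For `Pi^1_1`-sound theories an instance of local reflection is not provable. -/
theorem local_fail (Pp : ProofPred) (T : Set Fm) (hTs : ∀ ψ ∈ T, ψ.IsSentence)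
    (hW : ∀ φ, Weak φ → Proves T φ) (hS : Pi11Sound T) (τ : Fm) (hτ : Sigma11Defines τ T) :
    ∃ γ : Fm, γ.IsPi11Sentence ∧ std.Holds γ ∧ ¬ Proves T (Pp.refl τ γ) := by
  obtain ⟨γ, h1, h2, h3⟩ := local_main Pp τ hτ.1 hτ.2.1
  have h4 := h3 T hTs hτ
  have h5 : ¬ Proves T γ := fun h => (h4.mp (hS γ h1 h)) h
  exact ⟨γ, h1, h4.mpr h5, fun h => h5 (mp_proves T hW _ _ h2 h)⟩

/-- The uniform reflection sentence implies its instances. -/
theorem instance_of_uniform (Pp : ProofPred) (T : Set Fm) (τ isPi tr : Fm)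
    (h1 : ∀ φ : Fm, φ.IsPi11Sentence → Proves T (isPi.inst φ.code))
    (h2 : ∀ φ : Fm, φ.IsPi11Sentence → Proves T (.imp (tr.inst φ.code) φ))
    (h : Proves T (.all 2 (.imp (.and isPi (Pp.Pr τ)) tr))) (φ : Fm) (hφ : φ.IsPi11Sentence) :
    Proves T (Pp.refl τ φ) := by
  intro M hM v V hV
  rw [ProofPred.refl, Sat_imp]
  intro h3
  have htr := h2 _ hφ M hM v V hV
  rw [Sat_imp] at htr
  refine htr ?_
  have hPi := h1 _ hφ M hM v V hV
  simp only [Fm.inst, Sat, Sat_imp, Tm.val, update_self, val_numeral] at hPi h3 ⊢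
  rintro a rfl
  have hRR := h M hM v V hV
  simp only [Sat, Sat_imp] at hRR
  exact hRR _ ⟨hPi _ rfl, h3 _ rfl⟩

/-- The proof predicate of an arithmetization. -/
def ofA (𝒜 : Arithmetization) : ProofPred where
  prf := 𝒜.prf
  axIn := 𝒜.axIn
  prf_arith := 𝒜.prf_arith
  prf_free := 𝒜.prf_free
  axIn_arith := 𝒜.axIn_arith
  axIn_free := 𝒜.axIn_free
  prf_correct := 𝒜.prf_correct

theorem aca_fail (𝒜 : Arithmetization) (T : Set Fm) (hT : ExtendsACA0 T) (hS : Pi11Sound T) :
    ¬ ProvesOwnSoundness 𝒜 T := by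
  rintro ⟨τ, hτ, h⟩
  have hW : ∀ φ, Weak φ → Proves T φ := fun φ hφ => hT.2 φ hφ.aca
  obtain ⟨γ, h1, _, h3⟩ := local_fail (ofA 𝒜) T hT.1 hW hS τ hτ
  refine h3 (instance_of_uniform (ofA 𝒜) T τ 𝒜.isPi 𝒜.tr (fun φ hφ M hM => ?_)
    (fun φ hφ M hM v V hV => ?_) h γ h1)
  · exact 𝒜.isPi_proves φ hφ M fun ψ hψ => hT.2 ψ hψ M hM
  · have htr := 𝒜.tr_proves φ hφ M (fun ψ hψ => hT.2 ψ hψ M hM) v V hV
    rw [Sat_iff] at htr
    rw [Sat_imp]
    exact htr.mp

end Pool.Agent.Y9.LR
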